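import Mathlib

namespace Pool.Agent.Results.MP_fc29f1_nt.Seven

open Finset

/-- `u ≡ v (mod p^m)` for `p`-integral rationals -/
def Cong (p m : ℕ) (u v : ℚ) : Prop := ∃ c : ℚ, u - v = (p : ℚ) ^ m * c ∧ ¬ p ∣ c.den

/-- `a (a-1) ⋯ (a-k+1) / k!` -/
def binom (a : ℚ) (k : ℕ) : ℚ := (∏ i ∈ range k, (a - i)) / (k.factorial : ℚ)

def S1 (p : ℕ) : ℚ := ∑ k ∈ range p, binom (-1 / 2) k * binom (-1 / 3) k * (-3) ^ k
def S2 (p : ℕ) : ℚ := ∑ k ∈ range p, binom (-1 / 2) k * binom (-1 / 3) k / (-27) ^ k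
def S3 (p : ℕ) : ℚ := ∑ k ∈ range p, binom (-1 / 2) k * binom (-2 / 3) k / (-4) ^ k
def S4 (p : ℕ) : ℚ := ∑ k ∈ range p, binom (-1 / 2) k * binom (-1 / 3) k / 5 ^ k
def S5 (p : ℕ) : ℚ := ∑ k ∈ range p, binom (-1 / 2) k * binom (-1 / 3) k * 2 ^ k

/-- the statement of Q1 (for a prime lower argument the Jacobi symbol is the Legendre symbol) -/
def Q1 : Prop := ∀ p : ℕ, p.Prime → 5 < p →
  (p % 3 = 1 → ∀ A B : ℤ, (p : ℤ) = A ^ 2 + 3 * B ^ 2 → 3 ∣ A - 1 →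
    Cong p 2 (S1 p) (2 * A - (p : ℚ) / (2 * A)) ∧
    Cong p 2 (S2 p) (2 * A - (p : ℚ) / (2 * A)) ∧
    Cong p 2 (S3 p) (2 * A - (p : ℚ) / (2 * A)) ∧
    Cong p 2 ((jacobiSym p 5 : ℚ) * S4 p) (2 * A - (p : ℚ) / (2 * A)) ∧
    Cong p 2 ((jacobiSym (-1) p : ℚ) * S5 p) (2 * A - (p : ℚ) / (2 * A))) ∧
  (p % 3 = 2 → Cong p 1 (S1 p) 0 ∧ Cong p 1 (S2 p) 0 ∧ Cong p 1 (S3 p) 0 ∧
    Cong p 1 (S4 p) 0 ∧ Cong p 1 (S5 p) 0)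

theorem val : S2 7 = 215591174128891 / 216905884017408 := by decide +kernel

theorem fails : ¬ Cong 7 2 (S2 7) (2 * ((-2 : ℤ) : ℚ) -
    ((7 : ℕ) : ℚ) / (2 * ((-2 : ℤ) : ℚ))) := by
  rintro ⟨c, hc, hd⟩
  rw [val] at hc
  have : c = 100518487595437 / 1518341188121856 := by
    norm_num at hc
    linarith
  rw [this] at hd
  exact hd (by decide +kernel)

theorem result : ¬ Q1 ∧ ¬ Cong 7 2 (S2 7) (2 * ((-2 : ℤ) : ℚ) -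
    ((7 : ℕ) : ℚ) / (2 * ((-2 : ℤ) : ℚ))) :=
  ⟨fun h => fails ((h 7 (by norm_num) (by norm_num)).1 (by norm_num) (-2) 1 (by norm_num)
    (by norm_num)).2.1, fails⟩

end Pool.Agent.Results.MP_fc29f1_nt.Seven
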